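import Pool.Agent.Helper13HC.Defs

/-!
# Chow groups and cycle classes of affine schemes and of smooth projective hypersurfaces
-/

set_option autoImplicit false

open Polynomial

namespace Pool.Agent.Helper13HD

open Pool.Agent.Helper13HC

/-- The data: the Chow groups of affine schemes and of projective hypersurfaces (`ChowData`), and their
cycle classes.

* `H A r` is the Borel-Moore homology group `H_{2r}(Spec A)`, the target of the cycle class map `cl` on
  the group `CH A r 0` of the cycles of dimension `r`;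
* `HX F i` is the cohomology group `H^{2i}(X)` of the hypersurface `X : F = 0`, the target of the cycle
  class map `clX` on the group `A F i = A^i(X)`, and `hypH` is the multiplication with the class of a
  hyperplane section. -/
structure CycleData (k : Type) [Field k] extends ChowData k where
  H : (A : Type) → [CommRing A] → [Algebra k A] → ℤ → Type
  [grpH : ∀ (A : Type) [CommRing A] [Algebra k A] (r : ℤ), AddCommGroup (H A r)]
  [modH : ∀ (A : Type) [CommRing A] [Algebra k A] (r : ℤ), Module ℚ (H A r)]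
  cl : ∀ (A : Type) [CommRing A] [Algebra k A] (r : ℤ), CH A r 0 →ₗ[ℚ] H A r
  HX : {n : ℕ} → MvPolynomial (Fin (n + 2)) k → ℕ → Type
  [grpHX : ∀ {n : ℕ} (F : MvPolynomial (Fin (n + 2)) k) (i : ℕ), AddCommGroup (HX F i)]
  [modHX : ∀ {n : ℕ} (F : MvPolynomial (Fin (n + 2)) k) (i : ℕ), Module ℚ (HX F i)]
  clX : ∀ {n : ℕ} (F : MvPolynomial (Fin (n + 2)) k) (i : ℕ), A F i →ₗ[ℚ] HX F i
  hypH : ∀ {n : ℕ} (F : MvPolynomial (Fin (n + 2)) k) (i : ℕ), HX F i →ₗ[ℚ] HX F (i + 1)

attribute [instance] CycleData.grpH CycleData.modH CycleData.grpHX CycleData.modHX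

variable {k : Type} [Field k]

/-- The homomorphism `φ` of Chow groups is compatible with a homomorphism of homology groups. -/
def Compatible (T : CycleData k) {A B : Type} [CommRing A] [Algebra k A] [CommRing B] [Algebra k B]
    {r s : ℤ} (φ : T.CH A r 0 →ₗ[ℚ] T.CH B s 0) : Prop :=
  ∃ ψ : T.H A r →ₗ[ℚ] T.H B s, ∀ x, T.cl B s (φ x) = ψ (T.cl A r x)

/-- There is a localisation sequence
`CH_r(A, 1) → CH_r(A_f, 1) → CH_r(A / f) → CH_r(A)`, whose last map is compatible with the homology. -/
def LocSequence (T : CycleData k) (A : Type) [CommRing A] [Algebra k A] (f : A) (r : ℤ) : Prop :=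
  ∃ (α : T.CH A r 1 →ₗ[ℚ] T.CH (Localization.Away f) r 1)
    (β : T.CH (Localization.Away f) r 1 →ₗ[ℚ] T.CH (A ⧸ Ideal.span {f}) r 0)
    (γ : T.CH (A ⧸ Ideal.span {f}) r 0 →ₗ[ℚ] T.CH A r 0),
    Function.Exact α β ∧ Function.Exact β γ ∧ Compatible T γ

/-- The pull-back to the covering `Spec A[y] / (g)` is injective on the Chow groups. -/
def CoverInjective (T : CycleData k) (A : Type) [CommRing A] [Algebra k A] (g : A[X]) : Prop :=
  ∀ r : ℤ, ∃ φ : T.CH A r 0 →ₗ[ℚ] T.CH (AdjoinRoot g) r 0, Function.Injective φ ∧ Compatible T φ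

/-- The coordinate ring of the affine cone `F = 0`. -/
abbrev Cone {N : ℕ} (F : MvPolynomial (Fin N) k) : Type :=
  MvPolynomial (Fin N) k ⧸ Ideal.span {F}

/-- There is an exact sequence `A^i(X) → A^{i+1}(X) → CH_{n-i}(cone of X) → 0` for the hypersurface
`X : F = 0` of dimension `n`, with the multiplication with `h` and with the homomorphism `ρ`. -/
def ConeChow (T : CycleData k) {n : ℕ} (F : MvPolynomial (Fin (n + 2)) k) (i : ℕ)
    (ρ : T.A F (i + 1) →ₗ[ℚ] T.CH (Cone F) (n - i) 0) : Prop :=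
  Function.Exact (T.hyp F i) ρ ∧ Function.Surjective ρ

/-- There are compatible exact sequences `A^i(X) → A^{i+1}(X) → CH_{n-i}(cone of X) → 0` and
`H^{2i}(X) → H^{2i+2}(X) → H_{2n-2i}(cone of X)` for the hypersurface `X : F = 0` of dimension `n`, whose
first maps are the multiplication with `h`. -/
def ConeSequence (T : CycleData k) {n : ℕ} (F : MvPolynomial (Fin (n + 2)) k) (i : ℕ) : Prop :=
  ∃ (ρ : T.A F (i + 1) →ₗ[ℚ] T.CH (Cone F) (n - i) 0)
    (σ : T.HX F (i + 1) →ₗ[ℚ] T.H (Cone F) (n - i)),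
    ConeChow T F i ρ ∧ Function.Exact (T.hypH F i) σ ∧
      T.cl (Cone F) (n - i) ∘ₗ ρ = σ ∘ₗ T.clX F (i + 1)

/-- `h · A^i(X) ⊆ ℚ h^{i+1}` and `h · H^{2i}(X) ⊆ ℚ h^{i+1}` for the hypersurface `X : F = 0`. -/
def MultipleOfPower (T : CycleData k) {n : ℕ} (F : MvPolynomial (Fin (n + 2)) k) (i : ℕ) : Prop :=
  (∀ a : T.A F i, ∃ c : ℚ, T.hyp F i a = c • T.power F (i + 1)) ∧
    ∀ b : T.HX F i, ∃ c : ℚ, T.hypH F i b = c • T.clX F (i + 1) (T.power F (i + 1))

/-- The known properties of the Chow groups of affine schemes of finite type and of their cycle classes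
in Borel-Moore homology.

* `iso`: isomorphic schemes have isomorphic Chow groups;
* `localization`: the localisation sequence (Bloch);
* `homotopy`: `CH_{r+1}(Spec A × 𝔸^1, m) = CH_r(Spec A, m)`;
* `cover`: the pull-back to a finite free covering `Spec A[y] / (g)`, `g` monic of positive degree, is
  injective, since its composition with the push-forward is the multiplication with the degree;
* `point`: `CH_r(k) = 0` for `r ≠ 0` and `CH_r(k, 1) = 0` for `r ≠ -1`.

The isomorphisms, push-forwards and pull-backs are compatible with the cycle classes. -/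
structure IsAffineCycle (T : CycleData k) : Prop where
  iso : ∀ {A B : Type} [CommRing A] [Algebra k A] [CommRing B] [Algebra k B], (A ≃ₐ[k] B) →
    ∀ r : ℤ, (∀ m, Nonempty (T.CH A r m ≃ₗ[ℚ] T.CH B r m)) ∧
      ∃ φ : T.CH A r 0 →ₗ[ℚ] T.CH B r 0, Function.Injective φ ∧ Compatible T φ
  localization : ∀ (A : Type) [CommRing A] [Algebra k A] [Algebra.FiniteType k A] (f : A) (r : ℤ),
    LocSequence T A f r
  homotopy : ∀ (A : Type) [CommRing A] [Algebra k A] [Algebra.FiniteType k A] (r : ℤ),
    (∀ m, Nonempty (T.CH A[X] (r + 1) m ≃ₗ[ℚ] T.CH A r m)) ∧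
      ∃ φ : T.CH A r 0 →ₗ[ℚ] T.CH A[X] (r + 1) 0, Function.Injective φ ∧ Compatible T φ
  cover : ∀ (A : Type) [CommRing A] [Algebra k A] [Algebra.FiniteType k A] (g : A[X]), g.Monic →
    0 < g.natDegree → CoverInjective T A g
  point : ∀ r : ℤ, (r ≠ 0 → Subsingleton (T.CH k r 0)) ∧ (r ≠ -1 → Subsingleton (T.CH k r 1))

/-- The known properties, including those of the smooth hypersurfaces `X : F = 0` of degree `d ≥ 1` and
dimension `n`.

* `multiple`: `h · A^i(X) = ℚ h^{i+1}` and `h · H^{2i}(X, ℚ) = ℚ h^{i+1}`;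
* `cone`: the affine cone without the vertex is the line bundle `O(-1)` on `X` without the zero
  section (Gysin sequences), and for `i + 1 ≤ n` the vertex may be added;
* `nonzero`: the class of `h^i` is not zero for `i ≤ n`. -/
structure IsCycle (T : CycleData k) : Prop extends IsAffineCycle T where
  multiple : ∀ {n d : ℕ} (F : MvPolynomial (Fin (n + 2)) k), 0 < d → IsSmoothForm F d →
    ∀ i : ℕ, MultipleOfPower T F i
  cone : ∀ {n d : ℕ} (F : MvPolynomial (Fin (n + 2)) k), 0 < d → IsSmoothForm F d →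
    ∀ i : ℕ, i + 1 ≤ n → ConeSequence T F i
  nonzero : ∀ {n d : ℕ} (F : MvPolynomial (Fin (n + 2)) k), 0 < d → IsSmoothForm F d →
    ∀ i : ℕ, i ≤ n → T.clX F i (T.power F i) ≠ 0

/-- `A^i(X)_hom = 0`: the cycle class map on `A^i(X)` is injective, `X : F = 0`. -/
def HomInjective (T : CycleData k) {n : ℕ} (F : MvPolynomial (Fin (n + 2)) k) (i : ℕ) : Prop :=
  ∀ a : T.A F i, T.clX F i a = 0 → a = 0

end Pool.Agent.Helper13HD
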