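import Pool.Agent.Helper13HC.Susp
import Pool.Agent.Helper13HD.Defs

/-!
# Knörrer periodicity with cycle classes
-/

set_option autoImplicit false

open Polynomial

namespace Pool.Agent.Helper13HD

open Pool.Agent.Helper13HC

variable {k : Type} [Field k] {T : CycleData k}

section vanish

lemma IsAffineCycle.iso_sub (hT : IsAffineCycle T) {A B : Type} [CommRing A] [Algebra k A]
    [CommRing B] [Algebra k B] (e : A ≃ₐ[k] B) {r : ℤ} {m : ℕ} (h : Subsingleton (T.CH B r m)) :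
    Subsingleton (T.CH A r m) := by
  obtain ⟨φ⟩ := (hT.iso e r).1 m
  exact φ.toEquiv.subsingleton

lemma IsAffineCycle.poly_sub (hT : IsAffineCycle T) {A : Type} [CommRing A] [Algebra k A]
    [Algebra.FiniteType k A] {r : ℤ} {m : ℕ} (h : Subsingleton (T.CH A (r - 1) m)) :
    Subsingleton (T.CH A[X] r m) := by
  obtain ⟨φ⟩ := (hT.homotopy A (r - 1)).1 m
  rw [sub_add_cancel] at φ
  exact φ.toEquiv.subsingleton

/-- The Chow groups of the affine space. -/
lemma IsAffineCycle.affine (hT : IsAffineCycle T) (N : ℕ) : ∀ r : ℤ,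
    (r ≠ N → Subsingleton (T.CH (MvPolynomial (Fin N) k) r 0)) ∧
      (r ≠ N - 1 → Subsingleton (T.CH (MvPolynomial (Fin N) k) r 1)) := by
  induction N with
  | zero =>
    intro r
    refine ⟨fun h => hT.iso_sub (MvPolynomial.isEmptyAlgEquiv k (Fin 0)) ((hT.point r).1 ?_),
      fun h => hT.iso_sub (MvPolynomial.isEmptyAlgEquiv k (Fin 0)) ((hT.point r).2 ?_)⟩
    · exact_mod_cast h
    · intro h'
      exact h (by rw [h']; norm_num)
  | succ N ih =>
    intro r
    refine ⟨fun h => hT.iso_sub (MvPolynomial.finSuccEquiv k N) (hT.poly_sub ((ih (r - 1)).1 ?_)),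
      fun h => hT.iso_sub (MvPolynomial.finSuccEquiv k N) (hT.poly_sub ((ih (r - 1)).2 ?_))⟩
    · intro h'
      apply h
      push_cast
      omega
    · intro h'
      apply h
      push_cast
      omega

/-- The groups `CH_r(Spec A × 𝔾_m, 1)`. -/
lemma IsAffineCycle.torus_aux (hT : IsAffineCycle T) (A : Type) [CommRing A] [Algebra k A]
    [Algebra.FiniteType k A] {r : ℤ} (h1 : Subsingleton (T.CH A (r - 1) 1))
    (h2 : Subsingleton (T.CH A r 0)) :
    Subsingleton (T.CH (Localization.Away (X : A[X])) r 1) := by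
  obtain ⟨α, β, γ, h3, -, -⟩ := hT.localization A[X] X r
  have h4 : Subsingleton (T.CH A[X] r 1) := hT.poly_sub h1
  have h5 : Subsingleton (T.CH (A[X] ⧸ Ideal.span {(X : A[X])}) r 0) :=
    hT.iso_sub (quotX k A) h2
  refine subsingleton_of_forall_eq 0 fun x => ?_
  obtain ⟨y, rfl⟩ := (h3 x).1 (Subsingleton.elim _ _)
  rw [Subsingleton.elim y 0, map_zero]

/-- The Chow groups `CH_r(𝔸^N × 𝔾_m, 1)`. -/
lemma IsAffineCycle.torus (hT : IsAffineCycle T) (N : ℕ) (r : ℤ) (hr : r ≠ N) :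
    Subsingleton (T.CH (Localization.Away (X : (MvPolynomial (Fin N) k)[X])) r 1) :=
  hT.torus_aux _ (((hT.affine N) (r - 1)).2 (by omega)) (((hT.affine N) r).1 hr)

end vanish

section inj

/-- The cycle class map is injective on `CH_r(Spec A)`. -/
def Inj (T : CycleData k) (A : Type) [CommRing A] [Algebra k A] (r : ℤ) : Prop :=
  ∀ x : T.CH A r 0, T.cl A r x = 0 → x = 0

lemma Inj.of_compatible {A B : Type} [CommRing A] [Algebra k A] [CommRing B] [Algebra k B]
    {r s : ℤ} (h : Inj T B s) {φ : T.CH A r 0 →ₗ[ℚ] T.CH B s 0} (hφ : Function.Injective φ)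
    (hφ' : Compatible T φ) : Inj T A r := by
  intro x hx
  obtain ⟨ψ, hψ⟩ := hφ'
  refine hφ ?_
  rw [map_zero]
  exact h _ (by rw [hψ, hx, map_zero])

lemma IsAffineCycle.iso_inj (hT : IsAffineCycle T) {A B : Type} [CommRing A] [Algebra k A]
    [CommRing B] [Algebra k B] (e : A ≃ₐ[k] B) {r : ℤ} (h : Inj T B r) : Inj T A r := by
  obtain ⟨φ, h1, h2⟩ := (hT.iso e r).2
  exact h.of_compatible h1 h2

/-- The main step. -/
theorem IsAffineCycle.key (hT : IsAffineCycle T) {N : ℕ} (f : MvPolynomial (Fin N) k) {e : ℕ}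
    (he : 0 < e) (r : ℤ) (hr : r + 1 ≠ N) (h : Inj T (WR f e) (r + 1)) :
    Inj T (MvPolynomial (Fin N) k ⧸ Ideal.span {f}) r := by
  have hfin : Algebra.FiniteType k (KR f) :=
    inferInstanceAs (Algebra.FiniteType k (_ ⧸ Ideal.span {keq f}))
  -- the covering
  have hn : Nontrivial (KR f) :=
    (klift k (AlgHom.id k _) 1 f (one_mul f).symm : KR f →ₐ[k] _).toRingHom.domain_nontrivial
  have h1 : Inj T (KR f) (r + 1) := by
    obtain ⟨φ, hφ, hφ'⟩ := hT.cover (KR f) (gpol f e) (gpol_monic f he)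
      (by rw [gpol_degree f]; exact he) (r + 1)
    exact (hT.iso_inj (coverEquiv k f e) h).of_compatible hφ hφ'
  -- the localisation sequence
  have h3 : Subsingleton (T.CH (Localization.Away (ku f)) (r + 1) 1) :=
    hT.iso_sub (locEquiv k f) (hT.torus N (r + 1) hr)
  obtain ⟨α, β, γ, -, h4, h4'⟩ := hT.localization (KR f) (ku f) (r + 1)
  have hγ : Function.Injective γ := by
    rw [← LinearMap.ker_eq_bot, LinearMap.ker_eq_bot']
    intro x hx
    obtain ⟨y, rfl⟩ := (h4 x).1 hx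
    rw [Subsingleton.elim y 0, map_zero]
  have h5 : Inj T (KR f ⧸ Ideal.span {ku f}) (r + 1) := h1.of_compatible hγ h4'
  have h6 : Inj T (MvPolynomial (Fin N) k ⧸ Ideal.span {f})[X] (r + 1) :=
    hT.iso_inj (closedEquiv k f).symm h5
  obtain ⟨φ, hφ, hφ'⟩ := (hT.homotopy (MvPolynomial (Fin N) k ⧸ Ideal.span {f}) r).2
  exact h6.of_compatible hφ hφ'

/-- The homologically trivial classes in terms of the affine cone. -/
lemma IsCycle.hom_iff (hT : IsCycle T) {n d : ℕ} {F : MvPolynomial (Fin (n + 2)) k}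
    (hd : 0 < d) (hF : IsSmoothForm F d) {i : ℕ} (hi : i + 1 ≤ n) :
    HomInjective T F (i + 1) ↔
      Inj T (MvPolynomial (Fin (n + 2)) k ⧸ Ideal.span {F}) (n - i) := by
  obtain ⟨ρ, σ, ⟨h1, h2⟩, h3, h4'⟩ := hT.cone F hd hF i hi
  have h4 : ∀ a, T.cl (Cone F) (n - i) (ρ a) = σ (T.clX F (i + 1) a) :=
    fun a => LinearMap.congr_fun h4' a
  obtain ⟨h5, h6⟩ := hT.multiple F hd hF i
  have h7 := hT.nonzero F hd hF (i + 1) hi
  have hpow : T.power F (i + 1) = T.hyp F i (T.power F i) := rfl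
  constructor
  · intro h x hx
    obtain ⟨a, rfl⟩ := h2 x
    rw [h4] at hx
    obtain ⟨b, hb⟩ := (h3 _).1 hx
    obtain ⟨c, hc⟩ := h6 b
    have h8 : a = c • T.power F (i + 1) := by
      rw [← sub_eq_zero]
      refine h _ ?_
      rw [map_sub, map_smul, ← hb, hc, sub_self]
    rw [h8]
    refine (h1 _).2 ⟨c • T.power F i, ?_⟩
    rw [map_smul, hpow]
  · intro h a ha
    have h8 : ρ a = 0 := h _ (by rw [h4, ha, map_zero])
    obtain ⟨b, rfl⟩ := (h1 a).1 h8
    obtain ⟨c, hc⟩ := h5 b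
    rw [hc, map_smul] at ha
    rcases smul_eq_zero.1 ha with h9 | h9
    · rw [hc, h9, zero_smul]
    · exact absurd h9 h7

/-- The step: the dimension `n + 2` and the codimension `i + 1`. -/
theorem IsCycle.step [CharZero k] (hT : IsCycle T) {n d : ℕ} {F : MvPolynomial (Fin (n + 2)) k}
    (hd : 2 ≤ d) (hF : IsSmoothForm F d) {i : ℕ} (h1 : 1 ≤ i) (h2 : i ≤ n)
    (h : HomInjective T (n := n + 2) (susp F (d - 1)) (i + 1)) : HomInjective T F i := by
  obtain ⟨e, rfl⟩ : ∃ e, d = e + 1 := ⟨d - 1, by omega⟩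
  obtain ⟨j, rfl⟩ : ∃ j, i = j + 1 := ⟨i - 1, by omega⟩
  have he : 0 < e := by omega
  rw [Nat.add_sub_cancel] at h
  rw [hT.hom_iff (n := n + 2) (by omega) (susp_smooth he hF) (by omega)] at h
  rw [hT.hom_iff (by omega) hF h2]
  have e1 : ((n + 2 : ℕ) : ℤ) - (j + 1 : ℕ) = (n : ℤ) - j + 1 := by
    push_cast
    ring
  rw [e1] at h
  exact hT.key F he ((n : ℤ) - j) (by push_cast; omega) (hT.iso_inj (suspEquiv k F e).symm h)

end inj

end Pool.Agent.Helper13HD
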